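import Mathlib
import Pool.Agent.Helper844.DPRM

/-! Relations on a monoid that are defined by finite systems of equations, and the reduction of
Hilbert's tenth problem to the Diophantine problem of a monoid in which the multiplication of
exponents of one element is defined by equations. -/

set_option autoImplicit false

namespace Pool.Agent.H653Z.OR

section Frame

variable {C M : Type} [Monoid M] (gen : C → M)

/-- The value of a word in constants and variables. -/
def ev {V : Type} (x : V → M) (w : List (C ⊕ V)) : M := (w.map (Sum.elim gen x)).prod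

/-- An assignment satisfies a system. -/
def Sat {V : Type} (x : V → M) (E : List (List (C ⊕ V) × List (C ⊕ V))) : Prop :=
  ∀ e ∈ E, ev gen x e.1 = ev gen x e.2

/-- Substitution of words for variables. -/
def sub {V V' : Type} (f : V → List (C ⊕ V')) (w : List (C ⊕ V)) : List (C ⊕ V') :=
  w.flatMap (Sum.elim (fun c => [Sum.inl c]) f)

/-- Substitution in a system. -/
def subs {V V' : Type} (f : V → List (C ⊕ V')) (E : List (List (C ⊕ V) × List (C ⊕ V))) :
    List (List (C ⊕ V') × List (C ⊕ V')) :=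
  E.map (fun e => (sub f e.1, sub f e.2))

theorem ev_nil {V : Type} (x : V → M) : ev gen x [] = 1 := rfl

theorem ev_append {V : Type} (x : V → M) (u w : List (C ⊕ V)) :
    ev gen x (u ++ w) = ev gen x u * ev gen x w := by
  simp [ev]

theorem ev_var {V : Type} (x : V → M) (v : V) : ev gen x [Sum.inr v] = x v := by simp [ev]

theorem ev_con {V : Type} (x : V → M) (c : C) : ev gen x [Sum.inl c] = gen c := by simp [ev]

theorem ev_sub {V V' : Type} (f : V → List (C ⊕ V')) (x : V' → M) (w : List (C ⊕ V)) :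
    ev gen x (sub f w) = ev gen (fun v => ev gen x (f v)) w := by
  induction w with
  | nil => rfl
  | cons h t ih =>
    have e1 : sub f (h :: t) = Sum.elim (fun c => [Sum.inl c]) f h ++ sub f t := by
      simp [sub]
    have e2 : (h :: t) = [h] ++ t := rfl
    rw [e1, ev_append, ih, e2, ev_append]
    congr 1
    cases h with
    | inl c => simp [ev]
    | inr v => simp [ev]

theorem sat_subs {V V' : Type} (f : V → List (C ⊕ V')) (x : V' → M)
    (E : List (List (C ⊕ V) × List (C ⊕ V))) :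
    Sat gen x (subs f E) ↔ Sat gen (fun v => ev gen x (f v)) E := by
  simp only [Sat, subs, List.forall_mem_map, ev_sub]

theorem sat_ren {V V' : Type} (f : V → V') (x : V' → M)
    (E : List (List (C ⊕ V) × List (C ⊕ V))) :
    Sat gen x (subs (fun v => [Sum.inr (f v)]) E) ↔ Sat gen (fun v => x (f v)) E := by
  rw [sat_subs]; simp only [ev_var]

theorem ev_congr {V : Type} {x y : V → M} (w : List (C ⊕ V))
    (h : ∀ v, Sum.inr v ∈ w → x v = y v) : ev gen x w = ev gen y w := by
  unfold ev
  congr 1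
  apply List.map_congr_left
  intro a ha
  cases a with
  | inl c => rfl
  | inr v => exact h v ha

/-- A relation defined by a finite system of equations with auxiliary variables. -/
def Defb {V : Type} (R : (V → M) → Prop) : Prop :=
  ∃ (W : Type) (E : List (List (C ⊕ (V ⊕ W)) × List (C ⊕ (V ⊕ W)))),
    ∀ x, R x ↔ ∃ y : W → M, Sat gen (Sum.elim x y) E

/-- A function given by a word. -/
def IsW {V : Type} (t : (V → M) → M) : Prop := ∃ w : List (C ⊕ V), ∀ x, t x = ev gen x w

variable {gen}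

theorem IsW.var {V : Type} (v : V) : IsW gen (fun x : V → M => x v) :=
  ⟨[Sum.inr v], fun x => (ev_var gen x v).symm⟩

theorem IsW.con {V : Type} (c : C) : IsW gen (fun _ : V → M => gen c) :=
  ⟨[Sum.inl c], fun x => (ev_con gen x c).symm⟩

theorem IsW.one {V : Type} : IsW gen (fun _ : V → M => (1 : M)) := ⟨[], fun _ => rfl⟩

theorem IsW.mul {V : Type} {t u : (V → M) → M} (ht : IsW gen t) (hu : IsW gen u) :
    IsW gen (fun x => t x * u x) := by
  obtain ⟨w, hw⟩ := ht
  obtain ⟨w', hw'⟩ := hu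
  exact ⟨w ++ w', fun x => by rw [ev_append, ← hw, ← hw']⟩

theorem IsW.pow {V : Type} {t : (V → M) → M} (ht : IsW gen t) (n : ℕ) :
    IsW gen (fun x => t x ^ n) := by
  induction n with
  | zero => simpa using IsW.one
  | succ n ih => simpa [pow_succ] using ih.mul ht

theorem IsW.ren {V V' : Type} (f : V → V') {t : (V → M) → M} (ht : IsW gen t) :
    IsW gen (fun z : V' → M => t (fun v => z (f v))) := by
  obtain ⟨w, hw⟩ := ht
  refine ⟨sub (fun v => [Sum.inr (f v)]) w, fun x => ?_⟩
  rw [ev_sub]; simp only [ev_var, hw]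

theorem Defb.eq {V : Type} {t u : (V → M) → M} (ht : IsW gen t) (hu : IsW gen u) :
    Defb gen (fun x => t x = u x) := by
  obtain ⟨w, hw⟩ := ht.ren (Sum.inl : V → V ⊕ Empty)
  obtain ⟨w', hw'⟩ := hu.ren (Sum.inl : V → V ⊕ Empty)
  refine ⟨Empty, [(w, w')], fun x => ?_⟩
  simp only [Sat, List.mem_singleton, forall_eq, ← hw, ← hw', Sum.elim_inl]
  exact ⟨fun h => ⟨Empty.elim, h⟩, fun ⟨_, h⟩ => h⟩

theorem Defb.and {V : Type} {R S : (V → M) → Prop} (hR : Defb gen R) (hS : Defb gen S) :
    Defb gen (fun x => R x ∧ S x) := by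
  obtain ⟨W, E, h⟩ := hR
  obtain ⟨W', E', h'⟩ := hS
  refine ⟨W ⊕ W', subs (fun v => [Sum.inr (Sum.map id Sum.inl v)]) E ++
    subs (fun v => [Sum.inr (Sum.map id Sum.inr v)]) E', fun x => ?_⟩
  have hs : ∀ (y : V ⊕ (W ⊕ W') → M) A B, Sat gen y (A ++ B) ↔ Sat gen y A ∧ Sat gen y B := by
    intro y A B
    simp only [Sat, List.mem_append, or_imp, forall_and]
  simp only [hs, sat_ren, h, h']
  constructor
  · rintro ⟨⟨y, hy⟩, ⟨y', hy'⟩⟩
    refine ⟨Sum.elim y y', ?_, ?_⟩
    · convert hy using 1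
      funext v; cases v <;> rfl
    · convert hy' using 1
      funext v; cases v <;> rfl
  · rintro ⟨y, hy, hy'⟩
    refine ⟨⟨fun w => y (Sum.inl w), ?_⟩, ⟨fun w => y (Sum.inr w), ?_⟩⟩
    · convert hy using 1
      funext v; cases v <;> rfl
    · convert hy' using 1
      funext v; cases v <;> rfl

theorem Defb.ren {V V' : Type} (f : V → V') {R : (V → M) → Prop} (hR : Defb gen R) :
    Defb gen (fun z : V' → M => R (fun v => z (f v))) := by
  obtain ⟨W, E, h⟩ := hR
  refine ⟨W, subs (fun v => [Sum.inr (Sum.map f id v)]) E, fun x => ?_⟩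
  simp only [sat_ren, h]
  refine exists_congr fun y => ?_
  have : (fun v => Sum.elim x y (Sum.map f id v)) = Sum.elim (fun v => x (f v)) y := by
    funext v; cases v <;> rfl
  rw [this]

theorem Defb.exs {V U : Type} {R : (V → M) → (U → M) → Prop}
    (hR : Defb gen (fun z : V ⊕ U → M => R (fun v => z (Sum.inl v)) (fun u => z (Sum.inr u)))) :
    Defb gen (fun x => ∃ y, R x y) := by
  obtain ⟨W, E, h⟩ := hR
  refine ⟨U ⊕ W, subs (fun v => [Sum.inr (Equiv.sumAssoc V U W v)]) E, fun x => ?_⟩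
  simp only [sat_ren]
  constructor
  · rintro ⟨y, hy⟩
    obtain ⟨y', hy'⟩ := (h (Sum.elim x y)).1 hy
    refine ⟨Sum.elim y y', ?_⟩
    convert hy' using 1
    funext v; rcases v with (v | v) | v <;> rfl
  · rintro ⟨y, hy⟩
    refine ⟨fun u => y (Sum.inl u), (h (Sum.elim x (fun u => y (Sum.inl u)))).2
      ⟨fun w => y (Sum.inr w), ?_⟩⟩
    convert hy using 1
    funext v; rcases v with (v | v) | v <;> rfl

theorem Defb.ex {V : Type} {R : M → (V → M) → Prop}
    (hR : Defb gen (fun z : Option V → M => R (z none) (fun v => z (some v)))) :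
    Defb gen (fun x => ∃ y, R y x) := by
  have h1 := Defb.exs (gen := gen) (V := V) (U := Unit) (R := fun x y => R (y ()) x)
    (hR.ren (fun o : Option V => o.elim (Sum.inr ()) Sum.inl))
  have : (fun x : V → M => ∃ y : Unit → M, R (y ()) x) = fun x => ∃ y, R y x := by
    funext x
    exact propext ⟨fun ⟨y, h⟩ => ⟨y (), h⟩, fun ⟨y, h⟩ => ⟨fun _ => y, h⟩⟩
  rwa [this] at h1

end Frame

section Tenth

variable {C M : Type} [Monoid M] {gen : C → M}

/-- An interpretation of the arithmetic of natural numbers by the powers of one element. -/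
structure Arith (gen : C → M) where
  /-- the element whose powers are the numerals -/
  a : M
  /-- reading a numeral -/
  num : M → ℕ
  /-- the multiplication relation -/
  Mu : M → M → M → Prop
  ha : IsW gen (fun _ : Empty → M => a)
  num_pow : ∀ n, num (a ^ n) = n
  dnum : Defb gen (fun x : Unit → M => ∃ n, x () = a ^ n)
  dmu : Defb gen (fun x : Fin 3 → M => Mu (x 0) (x 1) (x 2))
  mu_iff : ∀ n m z, Mu (a ^ n) (a ^ m) z ↔ z = a ^ (n * m)

namespace Arith

variable (A : Arith gen)

/-- Functions of natural numbers with a definable graph. -/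
def DefFn {α : Type} (g : (α → ℕ) → ℕ) : Prop :=
  ∃ R : M → (α → M) → Prop,
    Defb gen (fun z : Option α → M => R (z none) (fun v => z (some v))) ∧
    (∀ v, R (A.a ^ g v) (fun i => A.a ^ v i)) ∧
    (∀ z x, R z x → z = A.a ^ g (fun i => A.num (x i)))

theorem isW_a {V : Type} : IsW gen (fun _ : V → M => A.a) := A.ha.ren Empty.elim

theorem defFn_proj {α : Type} (i : α) : A.DefFn (fun v : α → ℕ => v i) := by
  refine ⟨fun z x => z = x i ∧ ∃ n, x i = A.a ^ n, ?_, fun v => ⟨rfl, _, rfl⟩, ?_⟩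
  · exact (Defb.eq (IsW.var _) (IsW.var _)).and (A.dnum.ren (fun _ => some i))
  · rintro z x ⟨rfl, n, hn⟩
    show x i = A.a ^ A.num (x i)
    rw [hn, A.num_pow]

theorem defFn_const {α : Type} (n : ℕ) : A.DefFn (fun _ : α → ℕ => n) :=
  ⟨fun z _ => z = A.a ^ n, Defb.eq (IsW.var _) (A.isW_a.pow n), fun _ => rfl, fun _ _ h => h⟩

theorem defFn_add {α : Type} {g h : (α → ℕ) → ℕ} (hg : A.DefFn g) (hh : A.DefFn h) :
    A.DefFn (fun v => g v + h v) := by
  obtain ⟨R, d1, c1, s1⟩ := hg
  obtain ⟨S, d2, c2, s2⟩ := hh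
  refine ⟨fun z x => ∃ p, ∃ q, R p x ∧ S q x ∧ z = p * q, ?_,
    fun v => ⟨_, _, c1 v, c2 v, pow_add _ _ _⟩, ?_⟩
  · refine Defb.ex (Defb.ex ?_)
    exact (d1.ren (fun o : Option α => o.elim (some none) (fun v => some (some (some v))))).and
      ((d2.ren (fun o : Option α => o.elim none (fun v => some (some (some v))))).and
      (Defb.eq (IsW.var _) ((IsW.var _).mul (IsW.var _))))
  · rintro z x ⟨p, q, hp, hq, rfl⟩
    rw [s1 _ _ hp, s2 _ _ hq, pow_add]

theorem defFn_mul {α : Type} {g h : (α → ℕ) → ℕ} (hg : A.DefFn g) (hh : A.DefFn h) :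
    A.DefFn (fun v => g v * h v) := by
  obtain ⟨R, d1, c1, s1⟩ := hg
  obtain ⟨S, d2, c2, s2⟩ := hh
  refine ⟨fun z x => ∃ p, ∃ q, R p x ∧ S q x ∧ A.Mu p q z, ?_,
    fun v => ⟨_, _, c1 v, c2 v, (A.mu_iff _ _ _).2 rfl⟩, ?_⟩
  · refine Defb.ex (Defb.ex ?_)
    exact (d1.ren (fun o : Option α => o.elim (some none) (fun v => some (some (some v))))).and
      ((d2.ren (fun o : Option α => o.elim none (fun v => some (some (some v))))).and
      (A.dmu.ren ![some none, none, some (some none)]))
  · rintro z x ⟨p, q, hp, hq, hz⟩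
    rw [s1 _ _ hp, s2 _ _ hq] at hz
    exact (A.mu_iff _ _ _).1 hz

theorem poly_diff {α : Type} (p : Poly α) : ∃ g h : (α → ℕ) → ℕ, A.DefFn g ∧ A.DefFn h ∧
    ∀ v, p v = (g v : ℤ) - h v := by
  refine Poly.induction (C := fun p => ∃ g h : (α → ℕ) → ℕ, A.DefFn g ∧ A.DefFn h ∧
    ∀ v, p v = (g v : ℤ) - h v) ?_ ?_ ?_ ?_ p
  · intro i
    exact ⟨_, _, A.defFn_proj i, A.defFn_const 0, fun v => by simp⟩
  · intro n
    refine ⟨_, _, A.defFn_const n.toNat, A.defFn_const (-n).toNat, fun v => ?_⟩
    simp only [Poly.const_apply]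
    omega
  · rintro f g ⟨a, b, ha, hb, h⟩ ⟨c, d, hc, hd, h'⟩
    refine ⟨_, _, A.defFn_add ha hd, A.defFn_add hb hc, fun v => ?_⟩
    simp only [Poly.sub_apply, h, h']
    push_cast; ring
  · rintro f g ⟨a, b, ha, hb, h⟩ ⟨c, d, hc, hd, h'⟩
    refine ⟨_, _, A.defFn_add (A.defFn_mul ha hc) (A.defFn_mul hb hd),
      A.defFn_add (A.defFn_mul ha hd) (A.defFn_mul hb hc), fun v => ?_⟩
    simp only [Poly.mul_apply, h, h']
    push_cast; ring

theorem pow_inj {n m : ℕ} (h : A.a ^ n = A.a ^ m) : n = m := by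
  rw [← A.num_pow n, h, A.num_pow]

theorem dioph_defb (S : ℕ → Prop) (hS : Dioph {v : Unit → ℕ | S (v ())}) :
    ∃ R : (Unit → M) → Prop, Defb gen R ∧ ∀ n, R (fun _ => A.a ^ n) ↔ S n := by
  obtain ⟨β, p, hp⟩ := hS
  obtain ⟨g, h, ⟨R, d1, c1, s1⟩, ⟨T, d2, c2, s2⟩, e⟩ := A.poly_diff p
  refine ⟨fun x => ∃ y : β → M, ∃ z, R z (Sum.elim x y) ∧ T z (Sum.elim x y), ?_, fun n => ?_⟩
  · refine Defb.exs ?_
    have e1 : (fun z : Unit ⊕ β → M => ∃ w, R w (Sum.elim (fun v => z (Sum.inl v))
        (fun u => z (Sum.inr u))) ∧ T w (Sum.elim (fun v => z (Sum.inl v))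
        (fun u => z (Sum.inr u)))) = fun z => ∃ w, R w z ∧ T w z := by
      funext z
      have : Sum.elim (fun v => z (Sum.inl v)) (fun u => z (Sum.inr u)) = z := by
        funext v; cases v <;> rfl
      rw [this]
    rw [e1]
    exact Defb.ex (d1.and d2)
  · have hn := hp (fun _ => n)
    simp only [Set.mem_ofPred_eq] at hn
    constructor
    · rintro ⟨y, z, h1, h2⟩
      have h3 := A.pow_inj ((s1 _ _ h1).symm.trans (s2 _ _ h2))
      refine hn.2 ⟨fun i => A.num (y i), ?_⟩
      have : (fun i => A.num (Sum.elim (fun _ : Unit => A.a ^ n) y i)) =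
          Sum.elim (fun _ : Unit => n) (fun i => A.num (y i)) := by
        funext i; cases i
        · exact A.num_pow n
        · rfl
      rw [this] at h3
      rw [e, h3, sub_self]
    · intro hs
      obtain ⟨t, ht⟩ := hn.1 hs
      rw [e, sub_eq_zero, Nat.cast_inj] at ht
      have : Sum.elim (fun _ : Unit => A.a ^ n) (fun i => A.a ^ t i) =
          fun i => A.a ^ (Sum.elim (fun _ : Unit => n) t i) := by
        funext i; cases i <;> rfl
      refine ⟨fun i => A.a ^ t i, A.a ^ g (Sum.elim (fun _ : Unit => n) t), ?_, ?_⟩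
      · rw [this]; exact c1 _
      · rw [this, ht]; exact c2 _

end Arith

theorem exists_re : ∃ S : ℕ → Prop, REPred S ∧ ¬ ComputablePred S := by
  refine ⟨fun n => ∃ c : Nat.Partrec.Code, Encodable.decode (α := Nat.Partrec.Code) n = some c ∧
    (c.eval 0).Dom, ?_, ?_⟩
  · have h := ComputablePred.halting_problem_re 0
    have h2 : Partrec fun n : ℕ => (Part.ofOption (Encodable.decode (α := Nat.Partrec.Code) n)).bind
        (fun c => Part.assert (c.eval 0).Dom fun _ => Part.some ()) :=
      (Computable.decode.ofOption).bind (Partrec.comp h Computable.snd).to₂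
    refine h2.of_eq fun n => ?_
    ext u
    simp
  · intro hc
    apply ComputablePred.halting_problem 0
    obtain ⟨hd, hcomp⟩ := hc
    have h3 : ComputablePred fun c : Nat.Partrec.Code =>
        ∃ c' : Nat.Partrec.Code, Encodable.decode (α := Nat.Partrec.Code) (Encodable.encode c) =
          some c' ∧ (c'.eval 0).Dom := ⟨fun c => hd _, hcomp.comp Computable.encode⟩
    refine h3.of_eq fun c => ?_
    simp

theorem primrec_sub [Primcodable C] {U : Type} (F : ℕ → U → List (C ⊕ ℕ))
    (hF : ∀ u, Primrec (fun n => F n u)) (w : List (C ⊕ U)) :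
    Primrec (fun n => sub (F n) w) := by
  induction w with
  | nil => exact Primrec.const _
  | cons h t ih =>
    have e1 : (fun n => sub (F n) (h :: t)) =
        fun n => Sum.elim (fun c => [Sum.inl c]) (F n) h ++ sub (F n) t := by
      funext n; simp [sub]
    rw [e1]
    refine Primrec.list_append.comp ?_ ih
    cases h with
    | inl c => exact Primrec.const _
    | inr u => exact hF u

theorem primrec_subs [Primcodable C] {U : Type} (F : ℕ → U → List (C ⊕ ℕ))
    (hF : ∀ u, Primrec (fun n => F n u)) (E : List (List (C ⊕ U) × List (C ⊕ U))) :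
    Primrec (fun n => subs (F n) E) := by
  induction E with
  | nil => exact Primrec.const _
  | cons h t ih =>
    exact Primrec.list_cons.comp ((primrec_sub F hF h.1).pair (primrec_sub F hF h.2)) ih

/-- If arithmetic is interpreted by equations, the Diophantine problem is undecidable. -/
theorem undecidable [Primcodable C] (A : Arith gen) :
    ¬ ComputablePred (fun E : List (List (C ⊕ ℕ) × List (C ⊕ ℕ)) => ∃ σ : ℕ → M, Sat gen σ E) := by
  classical
  intro hc
  obtain ⟨S, hS, hn⟩ := exists_re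
  obtain ⟨R, ⟨W, E, hE⟩, hR⟩ := A.dioph_defb S (Pool.Agent.Helper844.Dio.dprm hS)
  let s : Set W := {w | ∃ e ∈ E, Sum.inr (Sum.inr w) ∈ e.1 ∨ Sum.inr (Sum.inr w) ∈ e.2}
  have hs : s.Finite := by
    have h1 : {u : C ⊕ (Unit ⊕ W) | u ∈ E.flatMap (fun e => e.1 ++ e.2)}.Finite :=
      List.finite_toSet _
    refine (h1.preimage (f := fun w : W => (Sum.inr (Sum.inr w) : C ⊕ (Unit ⊕ W)))
      (fun a _ b _ h => by simpa using h)).subset ?_
    rintro w ⟨e, he, h⟩
    simp only [Set.mem_preimage, Set.mem_ofPred_eq, List.mem_flatMap, List.mem_append]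
    exact ⟨e, he, h⟩
  obtain ⟨f, hf⟩ := Set.countable_iff_exists_injOn.1 hs.countable
  obtain ⟨wa, hwa⟩ := A.isW_a (V := ℕ)
  let F : ℕ → Unit ⊕ W → List (C ⊕ ℕ) := fun n =>
    Sum.elim (fun _ => (List.range n).flatMap (fun _ => wa)) (fun w => [Sum.inr (f w)])
  have hF : ∀ u, Primrec (fun n => F n u) := by
    rintro (u | w)
    · exact Primrec.list_flatMap Primrec.list_range (Primrec.const wa).to₂
    · exact Primrec.const _
  have hev : ∀ (σ : ℕ → M) (n : ℕ), (fun u => ev gen σ (F n u)) =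
      Sum.elim (fun _ => A.a ^ n) (fun w => σ (f w)) := by
    intro σ n
    funext u
    rcases u with u | w
    · show ev gen σ ((List.range n).flatMap (fun _ => wa)) = A.a ^ n
      induction n with
      | zero => simp [ev]
      | succ n ih =>
        rw [List.range_succ, List.flatMap_append, ev_append, ih, pow_succ]
        simp [← hwa σ]
    · exact ev_var gen σ _
  have key : ∀ n, (∃ σ : ℕ → M, Sat gen σ (subs (F n) E)) ↔ S n := by
    intro n
    rw [← hR, hE]
    simp only [sat_subs, hev]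
    constructor
    · rintro ⟨σ, h⟩
      exact ⟨_, h⟩
    · rintro ⟨y, h⟩
      let σ : ℕ → M := fun k => if hk : ∃ w ∈ s, f w = k then y hk.choose else 1
      have hσ : ∀ w ∈ s, σ (f w) = y w := by
        intro w hw
        have hk : ∃ w' ∈ s, f w' = f w := ⟨w, hw, rfl⟩
        simp only [σ, dif_pos hk]
        rw [hf hk.choose_spec.1 hw hk.choose_spec.2]
      refine ⟨σ, fun e he => ?_⟩
      have h1 : ∀ u, (Sum.inr u ∈ e.1 ∨ Sum.inr u ∈ e.2) →
          Sum.elim (fun _ : Unit => A.a ^ n) (fun w => σ (f w)) u =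
          Sum.elim (fun _ : Unit => A.a ^ n) y u := by
        rintro (u | w) hu
        · rfl
        · exact hσ w ⟨e, he, hu⟩
      rw [ev_congr gen e.1 (fun u hu => h1 u (Or.inl hu)),
        ev_congr gen e.2 (fun u hu => h1 u (Or.inr hu))]
      exact h e he
  apply hn
  obtain ⟨hd, hcomp⟩ := hc
  have h3 : ComputablePred fun n => ∃ σ : ℕ → M, Sat gen σ (subs (F n) E) :=
    ⟨fun n => hd _, hcomp.comp (primrec_subs F hF E).to_comp⟩
  exact h3.of_eq key

end Tenth

end Pool.Agent.H653Z.OR
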