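import Mathlib
import Pool.Agent.H653Z.OR.Def

/-! The monoid with generators `a, b` and the relation `a a b b = 1` has a trivial group of units
and an undecidable Diophantine problem. -/

set_option autoImplicit false

namespace Pool.Agent.H653Z.OR

section General

variable {M : Type} [Monoid M]

/-- Two elements with a common right inverse. -/
def Sim (u v : M) : Prop := ∃ y, u * y = 1 ∧ v * y = 1

/-- The history relation. -/
def Hist (u v : M) : Prop := ∃ h, ∃ h', ∃ y, u * h' = h * v ∧ h * y = 1 ∧ h' * y = 1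

theorem Sim.symm {u v : M} (h : Sim u v) : Sim v u := by
  obtain ⟨y, h1, h2⟩ := h
  exact ⟨y, h2, h1⟩

theorem Sim.mul {u v u' v' : M} (h : Sim u v) (h' : Sim u' v') : Sim (u * u') (v * v') := by
  obtain ⟨y, h1, h2⟩ := h
  obtain ⟨y', h3, h4⟩ := h'
  refine ⟨y' * y, ?_, ?_⟩
  · rw [mul_assoc, ← mul_assoc u', h3, one_mul, h1]
  · rw [mul_assoc, ← mul_assoc v', h4, one_mul, h2]

theorem hist_of_chain {u v : M} (h : Relation.ReflTransGen Sim u v) : Hist u v := by
  induction h with
  | refl => exact ⟨1, 1, 1, by simp, by simp, by simp⟩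
  | @tail v v' _ hs ih =>
    obtain ⟨h, h', y, e1, e2, e3⟩ := ih
    obtain ⟨y', e4, e5⟩ := Sim.mul (⟨y, e2, e3⟩ : Sim h h') hs
    exact ⟨h * v, h' * v', y', by rw [← mul_assoc, e1], e4, e5⟩

theorem Hist.conj {G : Type} [Group G] (φ : M →* G) {u v : M} (h : Hist u v) :
    ∃ g : G, φ u = g * φ v * g⁻¹ := by
  obtain ⟨h, h', y, e1, e2, e3⟩ := h
  have a2 := congrArg φ e2
  have a3 := congrArg φ e3
  have a1 := congrArg φ e1
  rw [map_mul, map_one] at a2 a3
  rw [map_mul, map_mul] at a1
  have : φ h' = φ h := mul_right_cancel (a3.trans a2.symm)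
  rw [this] at a1
  exact ⟨φ h, by rw [← a1, mul_inv_cancel_right]⟩

/-- The submonoid of right invertible elements. -/
def RU (M : Type) [Monoid M] : Submonoid M where
  carrier := {x | ∃ y, x * y = 1}
  one_mem' := ⟨1, one_mul 1⟩
  mul_mem' := by
    rintro u v ⟨y, hy⟩ ⟨z, hz⟩
    obtain ⟨w, hw, _⟩ := Sim.mul (⟨y, hy, hy⟩ : Sim u u) (⟨z, hz, hz⟩ : Sim v v)
    exact ⟨w, hw⟩

theorem chain_map (f : M → M) (hf : ∀ u v, Sim u v → Sim (f u) (f v)) {u v : M}
    (h : Relation.ReflTransGen Sim u v) : Relation.ReflTransGen Sim (f u) (f v) := by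
  induction h with
  | refl => exact Relation.ReflTransGen.refl
  | tail _ hs ih => exact ih.tail (hf _ _ hs)

theorem chain_symm {u v : M} (h : Relation.ReflTransGen Sim u v) :
    Relation.ReflTransGen Sim v u := by
  induction h with
  | refl => exact Relation.ReflTransGen.refl
  | tail _ hs ih => exact Relation.ReflTransGen.head hs.symm ih

/-- The congruence generated by common right inverses. -/
def chainCon (M : Type) [Monoid M] : Con (RU M) where
  r u v := Relation.ReflTransGen Sim (u : M) (v : M)
  iseqv := ⟨fun _ => Relation.ReflTransGen.refl,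
    fun h => chain_symm h, fun h h' => h.trans h'⟩
  mul' := by
    intro w x y z h h'
    obtain ⟨p, hp⟩ := y.2
    obtain ⟨q, hq⟩ := x.2
    have h1 : Relation.ReflTransGen Sim ((w : M) * y) ((x : M) * y) :=
      chain_map (fun t => t * (y : M)) (fun _ _ s => Sim.mul s ⟨p, hp, hp⟩) h
    have h2 : Relation.ReflTransGen Sim ((x : M) * y) ((x : M) * z) :=
      chain_map (fun t => (x : M) * t)
        (fun _ _ s => Sim.mul ⟨q, hq, hq⟩ s) h'
    exact h1.trans h2

variable {C : Type} {gen : C → M}

theorem defb_ru {V : Type} {t : (V → M) → M} (ht : IsW gen t) :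
    Defb gen (fun x => ∃ y, t x * y = 1) :=
  Defb.ex (Defb.eq ((ht.ren some).mul (IsW.var _)) IsW.one)

theorem defb_hist {V : Type} {t u : (V → M) → M} (ht : IsW gen t) (hu : IsW gen u) :
    Defb gen (fun x => Hist (t x) (u x)) := by
  refine Defb.ex (Defb.ex (Defb.ex ?_))
  exact (Defb.eq ((ht.ren (fun v => some (some (some v)))).mul (IsW.var _))
    ((IsW.var _).mul (hu.ren (fun v => some (some (some v)))))).and
    ((Defb.eq ((IsW.var _).mul (IsW.var _)) IsW.one).and
    (Defb.eq ((IsW.var _).mul (IsW.var _)) IsW.one))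

theorem comm_pow {α : Type} (u : List α) (hu : u ≠ [])
    (hp : ∀ p : List α, p.length < u.length → p ++ u = u ++ p → p = []) :
    ∀ (n : ℕ) (w : List α), w.length = n → w ++ u = u ++ w →
      ∃ m, w = (List.replicate m u).flatten := by
  intro n
  induction n using Nat.strong_induction_on with
  | _ n ih =>
    intro w hw h
    by_cases hl : w.length < u.length
    · exact ⟨0, hp w hl h⟩
    · have hpre : u <+: w := List.prefix_of_prefix_length_le ⟨w, h.symm⟩ ⟨u, rfl⟩ (by omega)
      obtain ⟨w', rfl⟩ := hpre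
      have h' : w' ++ u = u ++ w' := by
        rw [List.append_assoc] at h
        exact List.append_cancel_left h
      have hpos : 0 < u.length := List.length_pos_iff.2 hu
      obtain ⟨m, hm⟩ := ih w'.length (by rw [← hw, List.length_append]; omega) w' rfl h'
      exact ⟨m + 1, by rw [List.replicate_succ, List.flatten_cons, ← hm]⟩

theorem prim_word {α : Type} (x y : α) (hxy : x ≠ y) (k : ℕ) (p : List α)
    (hl : p.length < (List.replicate k x ++ [y]).length)
    (h : p ++ (List.replicate k x ++ [y]) = (List.replicate k x ++ [y]) ++ p) : p = [] := by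
  by_contra hp
  have hpos : 0 < p.length := List.length_pos_iff.2 hp
  simp only [List.length_append, List.length_replicate, List.length_singleton] at hl
  have e := congrArg (fun l => l[k]?) h
  have e1 : (p ++ (List.replicate k x ++ [y]))[k]? = some x := by
    rw [List.getElem?_append_right (by omega), List.getElem?_append_left (by simp; omega),
      List.getElem?_replicate, if_pos (by omega)]
  have e2 : ((List.replicate k x ++ [y]) ++ p)[k]? = some y := by
    rw [List.getElem?_append_left (by simp), List.getElem?_append_right (by simp)]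
    simp
  simp only [e1, e2, Option.some.injEq] at e
  exact hxy e

end General

namespace Klein

/-- The congruence of the relation `a a b b = 1`. -/
def con : Con (FreeMonoid (Fin 2)) :=
  conGen (fun x y : FreeMonoid (Fin 2) => x = FreeMonoid.ofList [0, 0, 1, 1] ∧ y = 1)

/-- The monoid. -/
abbrev M : Type := con.Quotient

/-- The generators. -/
def gen (c : Fin 2) : M := Con.mk' con (FreeMonoid.of c)

theorem rel : gen 0 * gen 0 * gen 1 * gen 1 = 1 := by
  have h : con (FreeMonoid.ofList [0, 0, 1, 1]) 1 := ConGen.Rel.of _ _ ⟨rfl, rfl⟩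
  have h2 : Con.mk' con (FreeMonoid.ofList [0, 0, 1, 1]) = Con.mk' con 1 := (Con.eq con).2 h
  rw [map_one] at h2
  rw [← h2, gen, gen, ← map_mul, ← map_mul, ← map_mul]
  rfl

/-- Homomorphisms from the monoid. -/
def lift {T : Type} [Monoid T] (f : Fin 2 → T) (h : f 0 * f 0 * f 1 * f 1 = 1) : M →* T :=
  Con.lift con (FreeMonoid.lift f) (Con.conGen_le.2 (by
    rintro x y ⟨rfl, rfl⟩
    show Con.ker (FreeMonoid.lift f) _ _
    rw [Con.ker_rel, map_one, ← h]
    simp [mul_assoc]))

theorem lift_gen {T : Type} [Monoid T] (f : Fin 2 → T) (h : f 0 * f 0 * f 1 * f 1 = 1)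
    (c : Fin 2) : lift f h (gen c) = f c := by
  exact (Con.lift_mk' _ _).trans (FreeMonoid.lift_eval_of f c)

theorem ind {P : M → Prop} (h1 : P 1) (h2 : ∀ c m, P m → P (gen c * m)) (m : M) : P m := by
  obtain ⟨w, rfl⟩ := Con.mk'_surjective m
  induction w using FreeMonoid.inductionOn' with
  | one => simpa using h1
  | of_mul c w ih => rw [map_mul]; exact h2 c _ ih

/-- Reading one letter on a stack. -/
def step (c : Fin 2) (s : List (Fin 2)) : List (Fin 2) :=
  if c = 1 ∧ s.take 3 = [1, 0, 0] then s.drop 3 else c :: s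

/-- The action on stacks. -/
def rho : M →* (Function.End (List (Fin 2)))ᵐᵒᵖ :=
  lift (fun c => MulOpposite.op (step c : Function.End (List (Fin 2)))) (by
    apply MulOpposite.unop_injective
    funext s
    show step 1 (step 1 (step 0 (step 0 s))) = s
    simp [step])

/-- The action of an element on a stack. -/
def act (m : M) (s : List (Fin 2)) : List (Fin 2) := (rho m).unop s

theorem act_one (s : List (Fin 2)) : act 1 s = s := by
  rw [act, map_one]; rfl

theorem act_mul (m m' : M) (s : List (Fin 2)) : act (m * m') s = act m' (act m s) := by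
  rw [act, map_mul]; rfl

theorem act_gen (c : Fin 2) (s : List (Fin 2)) : act (gen c) s = step c s := by
  rw [act, rho, lift_gen]; rfl

/-- The element of a stack. -/
def val : List (Fin 2) → M
  | [] => 1
  | c :: s => val s * gen c

theorem val_step (c : Fin 2) (s : List (Fin 2)) : val (step c s) = val s * gen c := by
  unfold step
  split_ifs with h
  · obtain ⟨rfl, h⟩ := h
    conv_rhs => rw [← List.take_append_drop 3 s, h]
    show _ = val (s.drop 3) * gen 0 * gen 0 * gen 1 * gen 1
    rw [mul_assoc, mul_assoc, mul_assoc, ← mul_assoc (gen 0), ← mul_assoc (gen 0 * gen 0), rel,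
      mul_one]
  · rfl

theorem val_act (m : M) : ∀ s, val (act m s) = val s * m := by
  induction m using ind with
  | h1 => intro s; rw [act_one, mul_one]
  | h2 c m ih => intro s; rw [act_mul, ih, act_gen, val_step, mul_assoc]

/-- The two free generators `a` and `c = a a b` of the right invertible elements. -/
def pl (x : Bool) : M := if x then gen 0 else gen 0 * gen 0 * gen 1

/-- The element of a word in `a, c`. -/
def emb (t : List Bool) : M := (t.map pl).prod

/-- The stack of a reversed word in `a, c`. -/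
def stk : List Bool → List (Fin 2)
  | [] => []
  | true :: t => 0 :: stk t
  | false :: t => 1 :: 0 :: 0 :: stk t

theorem emb_append (t u : List Bool) : emb (t ++ u) = emb t * emb u := by simp [emb]

theorem stk_inj : ∀ t u : List Bool, stk t = stk u → t = u
  | [], [], _ => rfl
  | [], true :: _, h => by simp [stk] at h
  | [], false :: _, h => by simp [stk] at h
  | true :: _, [], h => by simp [stk] at h
  | false :: _, [], h => by simp [stk] at h
  | true :: t, true :: u, h => by rw [stk_inj t u (by simpa [stk] using h)]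
  | false :: t, false :: u, h => by rw [stk_inj t u (by simpa [stk] using h)]
  | true :: t, false :: u, h => by simp [stk] at h
  | false :: t, true :: u, h => by simp [stk] at h

theorem act_emb (t : List Bool) : ∀ u, act (emb t) (stk u) = stk (t.reverse ++ u) := by
  induction t with
  | nil => intro u; exact act_one _
  | cons x t ih =>
    intro u
    have e : emb (x :: t) = pl x * emb t := by simp [emb]
    have e2 : act (pl x) (stk u) = stk (x :: u) := by
      cases x <;> simp [pl, act_mul, act_gen, step, stk]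
    rw [e, act_mul, e2, ih]
    simp

theorem emb_inj {t u : List Bool} (h : emb t = emb u) : t = u := by
  have h1 := act_emb t []
  have h2 := act_emb u []
  rw [h, h2] at h1
  simpa using (stk_inj _ _ h1).symm

theorem val_stk (u : List Bool) : val (stk u) = emb u.reverse := by
  induction u with
  | nil => rfl
  | cons x u ih =>
    rw [List.reverse_cons, emb_append, ← ih]
    cases x <;> simp [stk, val, emb, pl, mul_assoc]

theorem good_step (c : Fin 2) (s : List (Fin 2)) (u : List Bool) (h : step c s = stk u) :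
    ∃ u', s = stk u' := by
  unfold step at h
  split_ifs at h with hc
  · refine ⟨false :: u, ?_⟩
    rw [← List.take_append_drop 3 s, hc.2, h]; rfl
  · rcases u with _ | ⟨x, u⟩
    · simp [stk] at h
    · cases x
      · simp only [stk, List.cons.injEq] at h
        exact ⟨true :: true :: u, h.2⟩
      · simp only [stk, List.cons.injEq] at h
        exact ⟨u, h.2⟩

theorem good_act (y : M) : ∀ s u, act y s = stk u → ∃ u', s = stk u' := by
  induction y using ind with
  | h1 => intro s u h; exact ⟨u, by rw [← h, act_one]⟩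
  | h2 c m ih =>
    intro s u h
    rw [act_mul, act_gen] at h
    obtain ⟨u', hu'⟩ := ih _ _ h
    exact good_step c s u' hu'

theorem right_unit {x y : M} (h : x * y = 1) : ∃ t, x = emb t := by
  have h1 : act y (act x []) = stk [] := by rw [← act_mul, h, act_one]; rfl
  obtain ⟨u, hu⟩ := good_act y _ _ h1
  have h2 := val_act x []
  rw [hu, val_stk] at h2
  exact ⟨u.reverse, by rw [h2]; exact (one_mul x).symm⟩

theorem unit_eq_one (g : Mˣ) : g = 1 := by
  obtain ⟨t, ht⟩ := right_unit g.mul_inv
  obtain ⟨u, hu⟩ := right_unit g.inv_mul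
  have h : emb (t ++ u) = emb [] := by rw [emb_append, ← ht, ← hu, g.mul_inv]; rfl
  have h2 := emb_inj h
  rw [List.append_eq_nil_iff] at h2
  apply Units.ext
  rw [ht, h2.1]; rfl

theorem emb_flatten (u : List Bool) (m : ℕ) : emb (List.replicate m u).flatten = emb u ^ m := by
  induction m with
  | zero => simp [emb]
  | succ m ih => rw [List.replicate_succ, List.flatten_cons, emb_append, ih, pow_succ']

/-- the letter `a` -/
def a : M := gen 0

/-- the element `c = a a b` -/
def c : M := gen 0 * gen 0 * gen 1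

theorem emb_word (k : ℕ) : emb (List.replicate k true ++ [false]) = a ^ k * c := by
  rw [emb_append]; simp [emb, pl, a, c]

theorem cent_a {x y : M} (h : x * y = 1) (hc : x * a = a * x) : ∃ n, x = a ^ n := by
  obtain ⟨t, rfl⟩ := right_unit h
  have e : a = emb [true] := by simp [emb, pl, a]
  rw [e, ← emb_append, ← emb_append] at hc
  obtain ⟨m, hm⟩ := comm_pow [true] (by simp) (fun p hp _ => by
    simpa using hp) _ t rfl (emb_inj hc)
  exact ⟨m, by rw [hm, emb_flatten, e]⟩

theorem cent_w (k : ℕ) {x y : M} (h : x * y = 1) (hc : x * (a ^ k * c) = (a ^ k * c) * x) :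
    ∃ n, x = (a ^ k * c) ^ n := by
  obtain ⟨t, rfl⟩ := right_unit h
  rw [← emb_word, ← emb_append, ← emb_append] at hc
  obtain ⟨m, hm⟩ := comm_pow _ (by simp) (prim_word true false (by simp) k) _ t rfl (emb_inj hc)
  exact ⟨m, by rw [hm, emb_flatten, emb_word]⟩

theorem a_mem : a ∈ RU M := ⟨gen 0 * gen 1 * gen 1, by rw [← rel, a]; simp only [mul_assoc]⟩

theorem c_mem : c ∈ RU M := ⟨gen 1, rel⟩

theorem sim_sq : Sim (a * a) (c * c) := by
  refine ⟨gen 1 * gen 1, by rw [← rel, a]; simp only [mul_assoc], ?_⟩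
  have h : c * gen 1 = 1 := rel
  rw [mul_assoc, ← mul_assoc c (gen 1), h, one_mul, h]

theorem chain (n m : ℕ) : Relation.ReflTransGen Sim ((a ^ n * a ^ n * a * c) ^ m)
    (a ^ (n * m) * a ^ (n * m) * (a * c) ^ m) := by
  let a' : RU M := ⟨a, a_mem⟩
  let c' : RU M := ⟨c, c_mem⟩
  let π := Con.mk' (chainCon M)
  have h1 : π a' * π a' = π c' * π c' := by
    rw [← map_mul, ← map_mul]
    exact (Con.eq _).2 (Relation.ReflTransGen.single sim_sq)
  have h2 : Commute (π a' * π a') (π a' * π c') := by
    refine Commute.mul_right ((Commute.refl _).mul_left (Commute.refl _)) ?_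
    rw [h1]
    exact (Commute.refl _).mul_left (Commute.refl _)
  have h3 : ∀ k : ℕ, π a' ^ k * π a' ^ k = (π a' * π a') ^ k := fun k =>
    ((Commute.refl _).mul_pow k).symm
  have h4 : π ((a' ^ n * a' ^ n * a' * c') ^ m) =
      π (a' ^ (n * m) * a' ^ (n * m) * (a' * c') ^ m) := by
    simp only [map_mul, map_pow, h3]
    rw [mul_assoc, (h2.pow_left n).mul_pow, pow_mul]
  exact (Con.eq _).1 h4

/-- The exponent sum. -/
def phi : M →* Multiplicative ℤ :=
  lift ![Multiplicative.ofAdd 1, Multiplicative.ofAdd (-1)] (by decide)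

/-- The map to the infinite dihedral group. -/
def psi : M →* DihedralGroup 0 := lift ![DihedralGroup.sr 0, DihedralGroup.sr 1] (by simp)

theorem phi_a : phi a = Multiplicative.ofAdd 1 := by rw [phi, a, lift_gen]; rfl

theorem phi_c : phi c = Multiplicative.ofAdd 1 := by
  simp only [phi, c, map_mul, lift_gen]; rfl

theorem psi_a : psi a = DihedralGroup.sr 0 := by rw [psi, a, lift_gen]; rfl

theorem psi_c : psi c = DihedralGroup.sr 1 := by
  simp [psi, c, lift_gen]

theorem psi_sq (n : ℕ) : psi a ^ n * psi a ^ n = 1 := by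
  rw [← (Commute.refl _).mul_pow, psi_a]; simp

/-- The auxiliary multiplication relation. -/
def Mu1 (z q z' : M) : Prop :=
  ∃ w, (∃ y, w * y = 1) ∧ w * (z * z * a * c) = (z * z * a * c) * w ∧ Hist w (z' * z' * q)

theorem mu1_iff (n m k : ℕ) : Mu1 (a ^ n) ((a * c) ^ m) (a ^ k) ↔ k = n * m := by
  constructor
  · rintro ⟨w, ⟨y, hy⟩, hc, hh⟩
    have e : a ^ n * a ^ n * a * c = a ^ (n + n + 1) * c := by rw [pow_succ, pow_add]
    rw [e] at hc
    obtain ⟨j, rfl⟩ := cent_w _ hy hc
    rw [← e] at hh
    obtain ⟨g, hg⟩ := hh.conj phi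
    rw [mul_comm g, mul_inv_cancel_right] at hg
    have h1 := congrArg Multiplicative.toAdd hg
    simp only [map_mul, map_pow, phi_a, phi_c, toAdd_mul, toAdd_pow, toAdd_ofAdd, nsmul_eq_mul,
      mul_one] at h1
    obtain ⟨g, hg⟩ := hh.conj psi
    simp only [map_mul, map_pow, psi_sq, one_mul] at hg
    rw [psi_a, psi_c, DihedralGroup.sr_mul_sr, sub_zero, DihedralGroup.r_one_pow,
      DihedralGroup.r_one_pow] at hg
    have h2 : j = m := by
      rcases g with i | i
      · simp only [DihedralGroup.inv_r, DihedralGroup.r_mul_r, DihedralGroup.r.injEq] at hg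
        have : (j : ℤ) = (m : ℤ) := by
          have h : ((j : ZMod 0)) = (m : ZMod 0) := by rw [hg]; ring
          exact h
        omega
      · simp only [DihedralGroup.inv_sr, DihedralGroup.sr_mul_r, DihedralGroup.sr_mul_sr,
          DihedralGroup.r.injEq] at hg
        have : (j : ℤ) = -(m : ℤ) := by
          have h : ((j : ZMod 0)) = -(m : ZMod 0) := by rw [hg]; ring
          exact h
        omega
    subst h2
    have h3 : (k : ℤ) = n * j := by linarith
    exact_mod_cast h3
  · rintro rfl
    refine ⟨(a ^ n * a ^ n * a * c) ^ m, ?_, ((Commute.refl _).pow_left m).eq,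
      hist_of_chain (chain n m)⟩
    exact (RU M).pow_mem ((RU M).mul_mem ((RU M).mul_mem ((RU M).mul_mem
      ((RU M).pow_mem a_mem n) ((RU M).pow_mem a_mem n)) a_mem) c_mem) m

/-- The multiplication relation. -/
def Mu (z1 z2 z3 : M) : Prop :=
  ((∃ y, z3 * y = 1) ∧ z3 * a = a * z3) ∧
    ∃ q, ((∃ y, q * y = 1) ∧ q * (a * c) = (a * c) * q) ∧ Mu1 a q z2 ∧ Mu1 z1 q z3

theorem num_iff (z : M) : ((∃ y, z * y = 1) ∧ z * a = a * z) ↔ ∃ n, z = a ^ n := by
  constructor
  · rintro ⟨⟨y, hy⟩, h⟩
    exact cent_a hy h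
  · rintro ⟨n, rfl⟩
    exact ⟨(RU M).pow_mem a_mem n, ((Commute.refl _).pow_left n).eq⟩

theorem mu_iff (n m : ℕ) (z : M) : Mu (a ^ n) (a ^ m) z ↔ z = a ^ (n * m) := by
  constructor
  · rintro ⟨hz, q, ⟨⟨y, hy⟩, hq⟩, h1, h2⟩
    obtain ⟨k, rfl⟩ := (num_iff z).1 hz
    rw [← pow_one a] at hq
    obtain ⟨j, rfl⟩ := cent_w 1 hy hq
    rw [pow_one] at h1 h2
    have h3 := (mu1_iff 1 j m).1 (by rwa [pow_one])
    have h4 := (mu1_iff n j k).1 h2
    rw [h4, h3, one_mul]
  · rintro rfl
    refine ⟨(num_iff _).2 ⟨_, rfl⟩, (a * c) ^ m,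
      ⟨(RU M).pow_mem ((RU M).mul_mem a_mem c_mem) m, ((Commute.refl _).pow_left m).eq⟩, ?_,
      (mu1_iff n m _).2 rfl⟩
    have := (mu1_iff 1 m m).2 (one_mul m).symm
    rwa [pow_one] at this

theorem isW_a {V : Type} : IsW gen (fun _ : V → M => a) := IsW.con 0

theorem isW_c {V : Type} : IsW gen (fun _ : V → M => c) :=
  ((IsW.con 0).mul (IsW.con 0)).mul (IsW.con 1)

theorem defb_mu1 {V : Type} {t u v : (V → M) → M} (ht : IsW gen t) (hu : IsW gen u)
    (hv : IsW gen v) : Defb gen (fun x => Mu1 (t x) (u x) (v x)) := by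
  refine Defb.ex ?_
  have h := (((ht.ren some).mul (ht.ren some)).mul isW_a).mul isW_c
  exact (defb_ru (IsW.var _)).and ((Defb.eq ((IsW.var _).mul h) (h.mul (IsW.var _))).and
    (defb_hist (IsW.var _) (((hv.ren some).mul (hv.ren some)).mul (hu.ren some))))

/-- The interpretation of arithmetic. -/
def arith : Arith gen where
  a := a
  num m := (Multiplicative.toAdd (phi m)).toNat
  Mu := Mu
  ha := isW_a
  num_pow n := by simp [phi_a]
  dnum := by
    simp only [← num_iff]
    exact (defb_ru (IsW.var _)).and (Defb.eq ((IsW.var _).mul isW_a) (isW_a.mul (IsW.var _)))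
  dmu := by
    refine ((defb_ru (IsW.var _)).and
      (Defb.eq ((IsW.var _).mul isW_a) (isW_a.mul (IsW.var _)))).and (Defb.ex ?_)
    exact ((defb_ru (IsW.var _)).and (Defb.eq ((IsW.var _).mul (isW_a.mul isW_c))
      ((isW_a.mul isW_c).mul (IsW.var _)))).and
      ((defb_mu1 isW_a (IsW.var _) (IsW.var _)).and (defb_mu1 (IsW.var _) (IsW.var _) (IsW.var _)))
  mu_iff := mu_iff

/-- The Diophantine problem of the monoid is undecidable. -/
theorem undec : ¬ ComputablePred (fun E : List (List (Fin 2 ⊕ ℕ) × List (Fin 2 ⊕ ℕ)) =>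
    ∃ σ : ℕ → M, ∀ e ∈ E, (e.1.map (Sum.elim gen σ)).prod = (e.2.map (Sum.elim gen σ)).prod) :=
  undecidable arith

end Klein

end Pool.Agent.H653Z.OR
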